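import Mathlib
import Pool.Agent.Helper5.NE.Stmts

/-! Packet P4 (`QEFormStmt`) for `S06356`. -/

namespace Pool.Agent.Helper5.NE

open scoped InnerProductSpace ComplexConjugate ENNReal Topology
open Filter

noncomputable section

theorem Pe_conj {k : ℕ} (a c : Fin k) : conj (Pe a c) = Pe a c := by
  unfold Pe
  split_ifs <;> simp

theorem Pe_sum {k : ℕ} {L : Type} [AddCommGroup L] [Module ℂ L] (Z : Fin k → L) (c : Fin k) :
    ∑ a, Pe a c • Z a = Z c - (1 / (k : ℂ)) • ∑ a, Z a := by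
  simp only [Pe, sub_smul, Finset.sum_sub_distrib, ite_smul, one_smul, zero_smul,
    Finset.sum_ite_eq', Finset.mem_univ, if_true, Finset.smul_sum]

theorem sum_Pe_sum {k : ℕ} (hk : 0 < k) {L : Type} [AddCommGroup L] [Module ℂ L] (Z : Fin k → L) :
    ∑ c, ∑ a, Pe a c • Z a = 0 := by
  have hk' : (k : ℂ) ≠ 0 := by exact_mod_cast hk.ne'
  simp only [Pe_sum, Finset.sum_sub_distrib, Finset.sum_const, Finset.card_univ, Fintype.card_fin]
  rw [← Nat.cast_smul_eq_nsmul ℂ, smul_smul, mul_one_div_cancel hk', one_smul, sub_self]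

theorem norm_Pe_sum {k : ℕ} (hk : 0 < k) {L : Type} [NormedAddCommGroup L] [InnerProductSpace ℂ L]
    (Z : Fin k → L) : ∑ c, ‖∑ a, Pe a c • Z a‖ ^ 2 ≤ ∑ c, ‖Z c‖ ^ 2 := by
  have hk' : (k : ℂ) ≠ 0 := by exact_mod_cast hk.ne'
  set t : L := (1 / (k : ℂ)) • ∑ a, Z a with ht
  have hs : ∑ a, Z a = (k : ℂ) • t := by
    rw [ht, smul_smul, mul_one_div_cancel hk', one_smul]
  have h1 : ∀ c, ‖∑ a, Pe a c • Z a‖ ^ 2 = ‖Z c‖ ^ 2 - 2 * (⟪Z c, t⟫_ℂ).re + ‖t‖ ^ 2 := by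
    intro c
    rw [Pe_sum, ← ht]
    exact norm_sub_sq (𝕜 := ℂ) (Z c) t
  simp only [h1]
  rw [Finset.sum_add_distrib, Finset.sum_sub_distrib, ← Finset.mul_sum, ← Complex.re_sum,
    ← sum_inner, hs, inner_smul_left, Finset.sum_const, Finset.card_univ, Fintype.card_fin,
    nsmul_eq_mul, inner_self_eq_norm_sq_to_K]
  have h2 : (conj (k : ℂ) * ((‖t‖ : ℝ) : ℂ) ^ 2).re = (k : ℝ) * ‖t‖ ^ 2 := by
    have : conj (k : ℂ) * ((‖t‖ : ℝ) : ℂ) ^ 2 = (((k : ℝ) * ‖t‖ ^ 2 : ℝ) : ℂ) := by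
      rw [Complex.conj_natCast]; push_cast; ring
    rw [this, Complex.ofReal_re]
  have h3 : 0 ≤ (k : ℝ) * ‖t‖ ^ 2 := by positivity
  have h4 : (conj (k : ℂ) * ((‖t‖ : ℂ)) ^ 2).re = (k : ℝ) * ‖t‖ ^ 2 := h2
  have h5 : ∀ x : ℝ, (x = (k : ℝ) * ‖t‖ ^ 2) → ∑ c, ‖Z c‖ ^ 2 - 2 * x + k * ‖t‖ ^ 2 ≤
      ∑ c, ‖Z c‖ ^ 2 := by
    intro x hx; rw [hx]; linarith
  exact h5 _ h4

/-- the linear functional of a matrix valued map -/
def OmS {k : ℕ} {D : Type} [CStarAlgebra D] (S : D →ₗ[ℂ] Matrix (Fin k ⊕ Fin k) (Fin k ⊕ Fin k) ℂ) :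
    Matrix (Fin k ⊕ Fin k) (Fin k ⊕ Fin k) D →ₗ[ℂ] ℂ where
  toFun y := ∑ c, ∑ c', S (y c c') c c'
  map_add' y z := by
    simp only [Matrix.add_apply, map_add, Finset.sum_add_distrib]
  map_smul' r y := by
    simp only [Matrix.smul_apply, map_smul, Finset.mul_sum, smul_eq_mul, RingHom.id_apply]

theorem OmS_apply {k : ℕ} {D : Type} [CStarAlgebra D]
    (S : D →ₗ[ℂ] Matrix (Fin k ⊕ Fin k) (Fin k ⊕ Fin k) ℂ) (y) :
    OmS S y = ∑ c, ∑ c', S (y c c') c c' := rfl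

/-- the matrix with entries `∑ j, ∑ c, (Pe a c * Pe a' (w j c)) • f j` in the lower left corner -/
def WS {m k : ℕ} {D : Type} [CStarAlgebra D] (w : Fin m → Equiv.Perm (Fin k)) (f : Fin m → D) :
    Matrix (Fin k ⊕ Fin k) (Fin k ⊕ Fin k) D
  | Sum.inr a', Sum.inl a => ∑ j, ∑ c, (Pe a c * Pe a' (w j c)) • f j
  | _, _ => 0

theorem OmS_WS {m k : ℕ} {D : Type} [CStarAlgebra D] (w : Fin m → Equiv.Perm (Fin k))
    (f : Fin m → D) (S : D →ₗ[ℂ] Matrix (Fin k ⊕ Fin k) (Fin k ⊕ Fin k) ℂ) :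
    OmS S (WS w f) =
      ∑ j, ∑ c, ∑ a, ∑ a', Pe a c * Pe a' (w j c) * S (f j) (Sum.inr a') (Sum.inl a) := by
  rw [OmS_apply]
  simp only [Fintype.sum_sum_type, WS, map_zero, Matrix.zero_apply, Finset.sum_const_zero,
    zero_add, add_zero, map_sum, map_smul, Matrix.sum_apply, Matrix.smul_apply, smul_eq_mul]
  rw [Finset.sum_comm]
  simp_rw [Finset.sum_comm (s := (Finset.univ : Finset (Fin k))) (t := (Finset.univ : Finset (Fin m)))]
  refine Finset.sum_congr rfl fun j _ => ?_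
  calc ∑ a, ∑ a', ∑ c, Pe a c * Pe a' (w j c) * S (f j) (Sum.inr a') (Sum.inl a)
      = ∑ a, ∑ c, ∑ a', Pe a c * Pe a' (w j c) * S (f j) (Sum.inr a') (Sum.inl a) :=
        Finset.sum_congr rfl fun a _ => Finset.sum_comm
    _ = _ := Finset.sum_comm

theorem inner_WS {m k : ℕ} {D : Type} [CStarAlgebra D] (w : Fin m → Equiv.Perm (Fin k))
    (f : Fin m → D) {L : Type} [NormedAddCommGroup L] [InnerProductSpace ℂ L]
    (ρ : D →ₗ[ℂ] (L →L[ℂ] L)) (Z E : Fin k ⊕ Fin k → L) :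
    ∑ i, ∑ j, ⟪E i, ρ (WS w f i j) (Z j)⟫_ℂ =
      ∑ j, ∑ c, ⟪∑ a', Pe a' (w j c) • E (Sum.inr a'), ρ (f j) (∑ a, Pe a c • Z (Sum.inl a))⟫_ℂ := by
  have h1 : ∀ j c, ⟪∑ a', Pe a' (w j c) • E (Sum.inr a'),
      ρ (f j) (∑ a, Pe a c • Z (Sum.inl a))⟫_ℂ =
      ∑ a', ∑ a, Pe a c * Pe a' (w j c) * ⟪E (Sum.inr a'), ρ (f j) (Z (Sum.inl a))⟫_ℂ := by
    intro j c
    rw [sum_inner]
    refine Finset.sum_congr rfl fun a' _ => ?_
    rw [inner_smul_left, map_sum, inner_sum, Finset.mul_sum]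
    refine Finset.sum_congr rfl fun a _ => ?_
    rw [map_smul, inner_smul_right, Pe_conj]
    ring
  simp_rw [h1]
  have h2 : ∑ i, ∑ j, ⟪E i, ρ (WS w f i j) (Z j)⟫_ℂ =
      ∑ a', ∑ a, ∑ j, ∑ c,
        Pe a c * Pe a' (w j c) * ⟪E (Sum.inr a'), ρ (f j) (Z (Sum.inl a))⟫_ℂ := by
    simp only [Fintype.sum_sum_type, WS, map_zero, ContinuousLinearMap.zero_apply, inner_zero_right,
      Finset.sum_const_zero, zero_add, add_zero]
    refine Finset.sum_congr rfl fun a' _ => ?_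
    refine Finset.sum_congr rfl fun a _ => ?_
    simp only [map_sum, map_smul, ContinuousLinearMap.sum_apply, ContinuousLinearMap.smul_apply,
      inner_sum, inner_smul_right]
  rw [h2]
  calc ∑ a', ∑ a, ∑ j, ∑ c, Pe a c * Pe a' (w j c) * ⟪E (Sum.inr a'), ρ (f j) (Z (Sum.inl a))⟫_ℂ
      = ∑ a', ∑ j, ∑ a, ∑ c,
          Pe a c * Pe a' (w j c) * ⟪E (Sum.inr a'), ρ (f j) (Z (Sum.inl a))⟫_ℂ :=
        Finset.sum_congr rfl fun a' _ => Finset.sum_comm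
    _ = ∑ j, ∑ a', ∑ a, ∑ c,
          Pe a c * Pe a' (w j c) * ⟪E (Sum.inr a'), ρ (f j) (Z (Sum.inl a))⟫_ℂ := Finset.sum_comm
    _ = ∑ j, ∑ a', ∑ c, ∑ a,
          Pe a c * Pe a' (w j c) * ⟪E (Sum.inr a'), ρ (f j) (Z (Sum.inl a))⟫_ℂ :=
        Finset.sum_congr rfl fun j _ => Finset.sum_congr rfl fun a' _ => Finset.sum_comm
    _ = _ := Finset.sum_congr rfl fun j _ => Finset.sum_comm

theorem sqrt_sum_le {k : ℕ} (hk : 0 < k) {L : Type} [NormedAddCommGroup L] [InnerProductSpace ℂ L]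
    (Z : Fin k ⊕ Fin k → L) (i : Fin k → Fin k ⊕ Fin k) (hi : Function.Injective i) :
    √(∑ c, ‖∑ a, Pe a c • Z (i a)‖ ^ 2) ≤ √(∑ c, ‖Z c‖ ^ 2) := by
  apply Real.sqrt_le_sqrt
  refine (norm_Pe_sum hk (fun a => Z (i a))).trans ?_
  rw [← Finset.sum_image (f := fun c => ‖Z c‖ ^ 2) (s := Finset.univ) (g := i)
    (fun a _ b _ h => hi h)]
  exact Finset.sum_le_sum_of_subset_of_nonneg (Finset.subset_univ _) (fun _ _ _ => by positivity)

theorem qeForm (h1 : QEStmt) (h2 : TransferStmt) : QEFormStmt := by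
  intro δ hδ
  obtain ⟨m, hm, w, hw⟩ := h1 δ hδ
  refine ⟨m, hm, w, ?_⟩
  intro D _ _
  obtain ⟨L, iL1, iL2, iL3, ρ, hρ, hρ2⟩ := h2 D
  filter_upwards [hw (Module.finrank ℂ L), eventually_gt_atTop 0] with k hk hk0
  intro f hf S hS hS1
  have hf' : ∀ j, ‖ρ (f j)‖ ≤ 1 := fun j => (hρ _).trans (hf j)
  have key := hρ2 (Fin k ⊕ Fin k) (OmS S) hS (WS (w k) f) (δ * m) (by positivity) (by
    intro Z E
    rw [inner_WS]
    refine (hk L le_rfl (fun j => ρ (f j)) hf' (fun c => ∑ a, Pe a c • Z (Sum.inl a))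
      (fun c => ∑ a, Pe a c • E (Sum.inr a)) (sum_Pe_sum hk0 _) (sum_Pe_sum hk0 _)).trans ?_
    refine mul_le_mul_of_nonneg_left ?_ (by positivity)
    exact mul_le_mul (sqrt_sum_le hk0 Z _ Sum.inl_injective) (sqrt_sum_le hk0 E _ Sum.inr_injective)
      (Real.sqrt_nonneg _) (Real.sqrt_nonneg _))
  rw [OmS_WS] at key
  refine key.trans ?_
  have h3 : (OmS S 1).re ≤ 2 * k := by
    rw [OmS_apply]
    have e : ∀ c : Fin k ⊕ Fin k, ∑ c', S ((1 : Matrix (Fin k ⊕ Fin k) (Fin k ⊕ Fin k) D) c c') c c' =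
        S 1 c c := by
      intro c
      rw [Finset.sum_eq_single c]
      · rw [Matrix.one_apply_eq]
      · intro b _ hb
        rw [Matrix.one_apply_ne (Ne.symm hb), map_zero, Matrix.zero_apply]
      · intro h; exact absurd (Finset.mem_univ c) h
    simp only [e]
    calc (∑ c, S 1 c c).re = ∑ c, (S 1 c c).re := Complex.re_sum _ _
      _ ≤ ∑ c : Fin k ⊕ Fin k, (1 : ℝ) :=
        Finset.sum_le_sum fun c _ => (Complex.re_le_norm _).trans (hS1 c)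
      _ = 2 * k := by
        simp [Fintype.card_sum]; ring
  calc δ * m * (OmS S 1).re ≤ δ * m * (2 * k) := mul_le_mul_of_nonneg_left h3 (by positivity)
    _ = 2 * k * δ * m := by ring

end

end Pool.Agent.Helper5.NE
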